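import Mathlib
import Pool.Agent.Lib_helper58.CayleyUM2

/-!
# The characters of `ℤ_5^n`
-/

set_option autoImplicit false

open Matrix Complex

namespace Pool.Agent.Lib_helper43.NonInt

open Pool.Agent.Lib_helper58.CayleyUM

/-- The pairing with `v`. -/
def dotHom {n : ℕ} (v : Fin n → ZMod 5) : (Fin n → ZMod 5) →+ ZMod 5 where
  toFun x := ∑ i, v i * x i
  map_zero' := by simp
  map_add' x y := by simp [mul_add, Finset.sum_add_distrib]

/-- The character `x ↦ ζ^{v·x}`. -/
noncomputable def chi {n : ℕ} (v : Fin n → ZMod 5) : AddChar (Fin n → ZMod 5) ℂ :=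
  (ZMod.stdAddChar (N := 5)).compAddMonoidHom (dotHom v)

theorem chi_apply {n : ℕ} (v x : Fin n → ZMod 5) :
    chi v x = ZMod.stdAddChar (N := 5) (∑ i, v i * x i) := rfl

theorem chi_add {n : ℕ} (v w : Fin n → ZMod 5) : chi (v + w) = chi v + chi w := by
  ext x
  rw [AddChar.add_apply, chi_apply, chi_apply, chi_apply, ← AddChar.map_add_eq_mul]
  congr 1
  rw [← Finset.sum_add_distrib]
  exact Finset.sum_congr rfl fun i _ => by rw [Pi.add_apply, add_mul]

theorem chi_injective {n : ℕ} : Function.Injective (chi (n := n)) := by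
  intro v w h
  funext i
  have h1 : chi v (Pi.single i 1) = chi w (Pi.single i 1) := by rw [h]
  rw [chi_apply, chi_apply] at h1
  have h2 := ZMod.injective_stdAddChar h1
  simpa [Pi.single_apply] using h2

theorem chi_bijective {n : ℕ} : Function.Bijective (chi (n := n)) := by
  rw [Fintype.bijective_iff_injective_and_card]
  exact ⟨chi_injective, (AddChar.card_eq).symm⟩

theorem sum_chi {n : ℕ} {M : Type*} [AddCommMonoid M] (F : AddChar (Fin n → ZMod 5) ℂ → M) :
    ∑ ψ, F ψ = ∑ v, F (chi v) :=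
  (Fintype.sum_bijective chi chi_bijective _ _ fun _ => rfl).symm

theorem chi_eq_zero_iff {n : ℕ} (v : Fin n → ZMod 5) : chi v = 0 ↔ v = 0 := by
  have h0 : chi (0 : Fin n → ZMod 5) = 0 := by
    ext x
    rw [chi_apply]
    simp
  constructor
  · intro h
    exact chi_injective (h.trans h0.symm)
  · rintro rfl
    exact h0

theorem exists_chi {n : ℕ} (ψ : AddChar (Fin n → ZMod 5) ℂ) : ∃ v, chi v = ψ :=
  chi_bijective.2 ψ

/-- The sum of a character over the whole group. -/
theorem sum_chi_apply {n : ℕ} (s : Fin n → ZMod 5) :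
    ∑ w : Fin n → ZMod 5, ZMod.stdAddChar (N := 5) (∑ i, w i * s i) =
      if s = 0 then (5 : ℂ) ^ n else 0 := by
  have h1 : ∀ w : Fin n → ZMod 5,
      ZMod.stdAddChar (N := 5) (∑ i, w i * s i) = chi s w := by
    intro w
    rw [chi_apply]
    congr 1
    exact Finset.sum_congr rfl fun i _ => mul_comm _ _
  rw [Finset.sum_congr rfl fun w _ => h1 w, AddChar.sum_eq_ite]
  simp only [chi_eq_zero_iff]
  congr 1
  simp

/-- The sum over the nonzero multiples. -/
theorem sum_mult (s : ZMod 5) :
    ∑ k ∈ (Finset.univ : Finset (ZMod 5)).erase 0, ZMod.stdAddChar (N := 5) (k * s) =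
      if s = 0 then (4 : ℂ) else -1 := by
  have h1 : ∑ k : ZMod 5, ZMod.stdAddChar (N := 5) (k * s) = if s = 0 then (5 : ℂ) else 0 := by
    have h2 := AddChar.sum_mulShift (R := ZMod 5) (R' := ℂ) s (ZMod.isPrimitive_stdAddChar 5)
    rw [h2]
    simp
  have h3 := Finset.add_sum_erase (Finset.univ : Finset (ZMod 5))
    (fun k => ZMod.stdAddChar (N := 5) (k * s)) (Finset.mem_univ 0)
  rw [h1] at h3
  simp only [zero_mul, AddChar.map_zero_eq_one] at h3
  split_ifs at h3 ⊢ with hs
  · linear_combination h3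
  · linear_combination h3

end Pool.Agent.Lib_helper43.NonInt
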