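import Mathlib

/-!
# The 21 points of `PG(3,5)` and the finite computations
-/

set_option autoImplicit false

namespace Pool.Agent.Lib_helper43.NonInt

/-- 21 points of the projective space over `ℤ_5`. -/
def pts : List (ℕ × ℕ × ℕ × ℕ) :=
  [(0, 1, 0, 3), (0, 1, 2, 2), (0, 1, 4, 4), (1, 0, 0, 3), (1, 0, 2, 4), (1, 0, 3, 2),
   (1, 0, 4, 4), (1, 1, 0, 1), (1, 1, 0, 3), (1, 1, 2, 3), (1, 2, 0, 1), (1, 2, 1, 1),
   (1, 2, 2, 3), (1, 2, 3, 0), (1, 3, 0, 3), (1, 3, 1, 3), (1, 3, 3, 2), (1, 3, 3, 3),
   (1, 4, 1, 4), (1, 4, 2, 2), (1, 4, 2, 3)]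

/-- The number of the points on the hyperplane with the coefficients `a, b, c, d`. -/
def cnt (a b c d : ℕ) : ℕ :=
  (pts.filter fun p => (a * p.1 + b * p.2.1 + c * p.2.2.1 + d * p.2.2.2) % 5 == 0).length

/-- The table of the numbers `cnt`. -/
def big : ℕ := 9972948589561945694272616573778828193688457647988304371889361529109121071962549489483741095078346344613257515759215779687433866531349840105592084350054961839843614427903940308032919892375010459994559361639199129416349452803518392175395499225940022397986772685956040921815580128523873804915022414354051248331328641056730832236047809383901166558021064614580624213116666915015864248168935929378557382723668592621911543448056226123659563613601371755004544482207653720749535464354220904602387574931373058465308095961281896128141154312083052888568224884727861729333789843559028954943208989116468509862987534914868244700281805949495119687311642626863435945019246022446255587713185705199642888917743916093301648340316291835068561776280920794428529906420709595483957112182717969253773568599785785824143602572369890140756625035906828036690290078964220935275926817023678157497296434448513500220714117639999232342279637297377689373722462021073218077749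

/-- Reading the table. -/
def tab (a b c d : ℕ) : ℕ := (big / 2 ^ (5 * (125 * a + 25 * b + 5 * c + d))) % 32

theorem cnt_eq : ∀ a < 5, ∀ b < 5, ∀ c < 5, ∀ d < 5, cnt a b c d = tab a b c d := by
  decide +kernel

/-- The coefficients of the first correlation. -/
def coefA : List ℕ := [1, 0, 0, 0, 0, 0, 0, 0, 0, 0, 0, 0, 0, 1, 5, 22, 30, 51, 73, 90, 79, 90, 73,
  51, 30, 22, 5, 1, 0, 0, 0, 0, 0, 0, 0, 0, 0, 0, 0, 0, 1]

/-- The coefficients of the second correlation. -/
def coefB : List ℕ := [0, 0, 0, 0, 0, 1, 0, 0, 0, 0, 0, 0, 0, 1, 2, 10, 27, 51, 73, 96, 103, 96, 73,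
  51, 27, 10, 2, 1, 0, 0, 0, 0, 0, 0, 0, 1, 0, 0, 0, 0, 0]

/-- The index set. -/
def idx : Finset (ℕ × ℕ × ℕ × ℕ) :=
  Finset.range 5 ×ˢ Finset.range 5 ×ˢ Finset.range 5 ×ˢ Finset.range 5

/-- The exponents of the first correlation. -/
def exA (x : ℕ × ℕ × ℕ × ℕ) : ℕ :=
  tab x.1 x.2.1 x.2.2.1 x.2.2.2 + 20 - tab x.1 x.2.1 x.2.2.1 ((x.2.2.2 + 1) % 5)

/-- The exponents of the second correlation. -/
def exB (x : ℕ × ℕ × ℕ × ℕ) : ℕ :=
  tab x.1 x.2.1 x.2.2.1 x.2.2.2 + 20 - tab x.1 x.2.1 ((x.2.2.1 + 1) % 5) x.2.2.2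

theorem exA_le : ∀ x ∈ idx, exA x < 41 ∧
    tab x.1 x.2.1 x.2.2.1 ((x.2.2.2 + 1) % 5) ≤ tab x.1 x.2.1 x.2.2.1 x.2.2.2 + 20 := by
  decide +kernel

theorem exB_le : ∀ x ∈ idx, exB x < 41 ∧
    tab x.1 x.2.1 ((x.2.2.1 + 1) % 5) x.2.2.2 ≤ tab x.1 x.2.1 x.2.2.1 x.2.2.2 + 20 := by
  decide +kernel

theorem histA : ∀ n < 41, (idx.filter fun x => exA x = n).card = coefA.getD n 0 := by
  decide +kernel

theorem histB : ∀ n < 41, (idx.filter fun x => exB x = n).card = coefB.getD n 0 := by
  decide +kernel

end Pool.Agent.Lib_helper43.NonInt
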