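import Mathlib
import Pool.Agent.Lib_helper43.NonInt.Data

/-!
# The permutation of the Maiorana-McFarland form, injectivity of the multiples
-/

set_option autoImplicit false

namespace Pool.Agent.Lib_helper43.NonInt

/-- First coordinate of the permutation. -/
def pi1 (a b : ZMod 5) : ZMod 5 := 4 * a ^ 3 + 2 * a * b ^ 2

/-- Second coordinate of the permutation. -/
def pi2 (a b : ZMod 5) : ZMod 5 := 3 * a ^ 2 * b + 4 * b ^ 3

theorem pi_inj : ∀ a b a' b' : ZMod 5, pi1 a b = pi1 a' b' → pi2 a b = pi2 a' b' →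
    a = a' ∧ b = b' := by
  decide +kernel

theorem cnt_mod : ∀ a b c d : ZMod 5, ((tab a.val b.val c.val d.val : ℕ) : ZMod 5) =
    (tab a.val b.val 0 0 : ℕ) + c * pi1 a b + d * pi2 a b := by
  decide +kernel

theorem mult_inj : ∀ p ∈ pts, ∀ p' ∈ pts, ∀ k k' : ZMod 5, k ≠ 0 → k' ≠ 0 →
    k * (p.1 : ZMod 5) = k' * (p'.1 : ZMod 5) → k * (p.2.1 : ZMod 5) = k' * (p'.2.1 : ZMod 5) →
    k * (p.2.2.1 : ZMod 5) = k' * (p'.2.2.1 : ZMod 5) →
    k * (p.2.2.2 : ZMod 5) = k' * (p'.2.2.2 : ZMod 5) → p = p' ∧ k = k' := by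
  decide +kernel

theorem pts_nodup : pts.Nodup := by decide +kernel

/-- No point lies in the plane of the vectors `(x, y, 0, 0)`. -/
theorem pts_off : ∀ p ∈ pts, ¬ ((p.2.2.1 : ZMod 5) = 0 ∧ (p.2.2.2 : ZMod 5) = 0) := by
  decide +kernel

end Pool.Agent.Lib_helper43.NonInt
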