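import Mathlib
import Pool.Agent.Lib_helper43.NonInt.Data2
import Pool.Agent.Lib_helper43.NonInt.Chars

/-!
# The eigenvalues of the graphs
-/

set_option autoImplicit false

open Matrix Complex

namespace Pool.Agent.Lib_helper43.NonInt

open Pool.Agent.Lib_helper58.CayleyUM

/-- The first four coordinates. -/
def hd {e : ℕ} (v : Fin (4 + e) → ZMod 5) : Fin 4 → ZMod 5 := fun i => v (Fin.castAdd e i)

/-- The vector of `ℤ_5^{4+e}` of a point. -/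
def emb (e : ℕ) (p : ℕ × ℕ × ℕ × ℕ) : Fin (4 + e) → ZMod 5 :=
  Fin.append ![(p.1 : ZMod 5), (p.2.1 : ZMod 5), (p.2.2.1 : ZMod 5), (p.2.2.2 : ZMod 5)]
    (fun _ => 0)

/-- The fixed part of the connection set. -/
def C0 (e : ℕ) : Finset (Fin (4 + e) → ZMod 5) :=
  (pts.toFinset ×ˢ (Finset.univ.erase 0)).image fun q : (ℕ × ℕ × ℕ × ℕ) × ZMod 5 => q.2 • emb e q.1

theorem mem_C0 {e : ℕ} {x : Fin (4 + e) → ZMod 5} :
    x ∈ C0 e ↔ ∃ p ∈ pts, ∃ k : ZMod 5, k ≠ 0 ∧ x = k • emb e p := by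
  unfold C0
  rw [Finset.mem_image]
  constructor
  · rintro ⟨⟨p, k⟩, h1, h2⟩
    rw [Finset.mem_product, List.mem_toFinset, Finset.mem_erase] at h1
    exact ⟨p, h1.1, k, h1.2.1, h2.symm⟩
  · rintro ⟨p, h1, k, h2, h3⟩
    refine ⟨(p, k), ?_, h3.symm⟩
    rw [Finset.mem_product, List.mem_toFinset, Finset.mem_erase]
    exact ⟨h1, h2, Finset.mem_univ _⟩

theorem emb_hd {e : ℕ} (p : ℕ × ℕ × ℕ × ℕ) (i : Fin 4) :
    emb e p (Fin.castAdd e i) =
      ![(p.1 : ZMod 5), (p.2.1 : ZMod 5), (p.2.2.1 : ZMod 5), (p.2.2.2 : ZMod 5)] i := by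
  unfold emb
  rw [Fin.append_left]

theorem emb_tl {e : ℕ} (p : ℕ × ℕ × ℕ × ℕ) (i : Fin e) : emb e p (Fin.natAdd 4 i) = 0 := by
  unfold emb
  rw [Fin.append_right]

theorem dot_emb {e : ℕ} (v : Fin (4 + e) → ZMod 5) (p : ℕ × ℕ × ℕ × ℕ) (k : ZMod 5) :
    ∑ i, v i * (k • emb e p) i = k * (hd v 0 * p.1 + hd v 1 * p.2.1 + hd v 2 * p.2.2.1
      + hd v 3 * p.2.2.2) := by
  rw [Fin.sum_univ_add]
  have h1 : ∑ i : Fin e, v (Fin.natAdd 4 i) * (k • emb e p) (Fin.natAdd 4 i) = 0 := by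
    apply Finset.sum_eq_zero
    intro i _
    rw [Pi.smul_apply, emb_tl, smul_zero, mul_zero]
  rw [h1, add_zero, Fin.sum_univ_four]
  simp only [Pi.smul_apply, emb_hd, smul_eq_mul, hd]
  simp
  ring

theorem C0_inj (e : ℕ) : Set.InjOn
    (fun q : (ℕ × ℕ × ℕ × ℕ) × ZMod 5 => q.2 • emb e q.1)
    ((pts.toFinset ×ˢ (Finset.univ.erase 0) : Finset ((ℕ × ℕ × ℕ × ℕ) × ZMod 5)) :
      Set ((ℕ × ℕ × ℕ × ℕ) × ZMod 5)) := by
  rintro ⟨p, k⟩ hp ⟨p', k'⟩ hp' h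
  simp only [Finset.coe_product, Set.mem_prod, Finset.mem_coe, List.mem_toFinset,
    Finset.mem_erase, Finset.mem_univ, and_true] at hp hp'
  have h0 : ∀ i : Fin 4, (k • emb e p) (Fin.castAdd e i) = (k' • emb e p') (Fin.castAdd e i) :=
    fun i => congrFun h _
  simp only [Pi.smul_apply, emb_hd, smul_eq_mul] at h0
  have h1 := mult_inj p hp.1 p' hp'.1 k k' hp.2 hp'.2 (h0 0) (h0 1) (h0 2) (h0 3)
  exact Prod.ext h1.1 h1.2

/-- The number of the points on a hyperplane. -/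
def N4 (u : Fin 4 → ZMod 5) : ℕ := tab (u 0).val (u 1).val (u 2).val (u 3).val

theorem N4_eq (u : Fin 4 → ZMod 5) : N4 u = (pts.toFinset.filter fun p =>
    (u 0 * p.1 + u 1 * p.2.1 + u 2 * p.2.2.1 + u 3 * p.2.2.2 : ZMod 5) = 0).card := by
  have h1 : N4 u = cnt (u 0).val (u 1).val (u 2).val (u 3).val :=
    (cnt_eq _ (ZMod.val_lt _) _ (ZMod.val_lt _) _ (ZMod.val_lt _) _ (ZMod.val_lt _)).symm
  have h3 : ∀ p : ℕ × ℕ × ℕ × ℕ,
      (((u 0).val * p.1 + (u 1).val * p.2.1 + (u 2).val * p.2.2.1 + (u 3).val * p.2.2.2) % 5 == 0)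
        = true ↔ (u 0 * p.1 + u 1 * p.2.1 + u 2 * p.2.2.1 + u 3 * p.2.2.2 : ZMod 5) = 0 := by
    intro p
    have h2 : (((u 0).val * p.1 + (u 1).val * p.2.1 + (u 2).val * p.2.2.1
        + (u 3).val * p.2.2.2 : ℕ) : ZMod 5) =
        u 0 * p.1 + u 1 * p.2.1 + u 2 * p.2.2.1 + u 3 * p.2.2.2 := by
      push_cast
      simp only [ZMod.natCast_val, ZMod.cast_id', id_eq]
    rw [← h2, ZMod.natCast_eq_zero_iff, Nat.dvd_iff_mod_eq_zero, beq_iff_eq]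
  rw [h1]
  unfold cnt
  rw [← List.toFinset_card_of_nodup (pts_nodup.filter _)]
  congr 1
  ext p
  rw [List.mem_toFinset, List.mem_filter, Finset.mem_filter, List.mem_toFinset, h3]

/-- The eigenvalue of the fixed part. -/
theorem lam_C0 {e : ℕ} (v : Fin (4 + e) → ZMod 5) :
    lam (C0 e) (chi v) = 5 * (N4 (hd v) : ℂ) - 21 := by
  unfold lam C0
  rw [Finset.sum_image (C0_inj e), Finset.sum_product]
  have h1 : ∀ p ∈ pts.toFinset, ∑ k ∈ (Finset.univ : Finset (ZMod 5)).erase 0,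
      chi v (k • emb e p) = (if (hd v 0 * p.1 + hd v 1 * p.2.1 + hd v 2 * p.2.2.1
      + hd v 3 * p.2.2.2 : ZMod 5) = 0 then (5 : ℂ) else 0) - 1 := by
    intro p _
    simp only [chi_apply, dot_emb]
    rw [sum_mult]
    split_ifs <;> norm_num
  rw [Finset.sum_congr rfl h1, Finset.sum_sub_distrib, ← Finset.sum_filter, Finset.sum_const,
    Finset.sum_const, N4_eq, List.toFinset_card_of_nodup pts_nodup]
  simp only [nsmul_eq_mul]
  have h2 : pts.length = 21 := rfl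
  rw [h2]
  push_cast
  ring

end Pool.Agent.Lib_helper43.NonInt
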