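import Mathlib

/-!
# Two integer polynomials without a common zero in `[-2, 2]`
-/

set_option autoImplicit false

namespace Pool.Agent.Lib_helper43.NonInt

/-- The first polynomial. -/
def TA (y : ℝ) : ℝ :=
  y ^ 16 - 2 * y ^ 15 - 15 * y ^ 14 + 30 * y ^ 13 + 90 * y ^ 12 - 178 * y ^ 11 - 279 * y ^ 10 +
    530 * y ^ 9 + 490 * y ^ 8 - 830 * y ^ 7 - 515 * y ^ 6 + 650 * y ^ 5 + 325 * y ^ 4 - 199 * y ^
    3 - 97 * y ^ 2 + 10 * y - 15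

/-- The second polynomial. -/
def TB (y : ℝ) : ℝ :=
  y ^ 11 - 2 * y ^ 10 - 10 * y ^ 9 + 20 * y ^ 8 + 35 * y ^ 7 - 68 * y ^ 6 - 54 * y ^ 5 + 90 * y ^
    4 + 46 * y ^ 3 - 40 * y ^ 2 - 15 * y + 7

theorem TA_neg1 (y : ℝ) (h1 : -2 ≤ y) (h2 : y ≤ (-3 / 2)) : 0 < -TA y := by
  obtain ⟨A, hA⟩ : ∃ A, A = y - (-2) := ⟨_, rfl⟩
  obtain ⟨B, hB⟩ : ∃ B, B = (-3 / 2) - y := ⟨_, rfl⟩
  have hA0 : 0 ≤ A := by rw [hA]; linarith
  have hB0 : 0 ≤ B := by rw [hB]; linarith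
  have key : -TA y =
      2031616 * A ^ 0 * B ^ 16 + 45285376 * A ^ 1 * B ^ 15 + 256950272 * A ^ 2 * B ^ 14 +
        846422016 * A ^ 3 * B ^ 13 + 2607599616 * A ^ 4 * B ^ 12 + 8291340288 * A ^ 5 * B ^ 11 +
        21718584320 * A ^ 6 * B ^ 10 + 41747538944 * A ^ 7 * B ^ 9 + 58250542592 * A ^ 8 * B ^ 8
        + 59750112512 * A ^ 9 * B ^ 7 + 45498879424 * A ^ 10 * B ^ 6 + 25739996096 * A ^ 11 * B ^
        5 + 10701462752 * A ^ 12 * B ^ 4 + 3183641136 * A ^ 13 * B ^ 3 + 642946396 * A ^ 14 * B ^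
        2 + 79157420 * A ^ 15 * B ^ 1 + 4496799 * A ^ 16 * B ^ 0 := by
    rw [hA, hB]
    unfold TA
    ring
  rw [key]
  rcases hA0.eq_or_lt with h | h
  · have hB1 : 0 < B := by rw [hB]; rw [hA] at h; linarith
    positivity
  · positivity

theorem TA_neg2 (y : ℝ) (h1 : (-3 / 2) ≤ y) (h2 : y ≤ (-1 / 2)) : 0 < -TA y := by
  obtain ⟨A, hA⟩ : ∃ A, A = y - ((-3 / 2)) := ⟨_, rfl⟩
  obtain ⟨B, hB⟩ : ∃ B, B = (-1 / 2) - y := ⟨_, rfl⟩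
  have hA0 : 0 ≤ A := by rw [hA]; linarith
  have hB0 : 0 ≤ B := by rw [hB]; linarith
  have key : -TA y =
      (4496799 / 65536) * A ^ 0 * B ^ 16 + (7191439 / 8192) * A ^ 1 * B ^ 15 + (4752511 / 1024) *
        A ^ 2 * B ^ 14 + (116242815 / 8192) * A ^ 3 * B ^ 13 + (560015519 / 16384) * A ^ 4 * B ^
        12 + (684108379 / 8192) * A ^ 5 * B ^ 11 + (759608809 / 4096) * A ^ 6 * B ^ 10 +
        (2551282651 / 8192) * A ^ 7 * B ^ 9 + (12286757785 / 32768) * A ^ 8 * B ^ 8 + (2676479629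
        / 8192) * A ^ 9 * B ^ 7 + (432249391 / 2048) * A ^ 10 * B ^ 6 + (848479869 / 8192) * A ^
        11 * B ^ 5 + (642346251 / 16384) * A ^ 12 * B ^ 4 + (92928585 / 8192) * A ^ 13 * B ^ 3 +
        (9742181 / 4096) * A ^ 14 * B ^ 2 + (2612585 / 8192) * A ^ 15 * B ^ 1 + (1325575 / 65536)
        * A ^ 16 * B ^ 0 := by
    rw [hA, hB]
    unfold TA
    ring
  rw [key]
  rcases hA0.eq_or_lt with h | h
  · have hB1 : 0 < B := by rw [hB]; rw [hA] at h; linarith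
    positivity
  · positivity

theorem TA_neg3 (y : ℝ) (h1 : (-1 / 2) ≤ y) (h2 : y ≤ 1) : 0 < -TA y := by
  obtain ⟨A, hA⟩ : ∃ A, A = y - ((-1 / 2)) := ⟨_, rfl⟩
  obtain ⟨B, hB⟩ : ∃ B, B = 1 - y := ⟨_, rfl⟩
  have hA0 : 0 ≤ A := by rw [hA]; linarith
  have hB0 : 0 ≤ B := by rw [hB]; linarith
  have key : -TA y =
      (1325575 / 43046721) * A ^ 0 * B ^ 16 + (21671980 / 43046721) * A ^ 1 * B ^ 15 + (56412172
        / 14348907) * A ^ 2 * B ^ 14 + (790750640 / 43046721) * A ^ 3 * B ^ 13 + (2287774064 /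
        43046721) * A ^ 4 * B ^ 12 + (1337885824 / 14348907) * A ^ 5 * B ^ 11 + (4437814912 /
        43046721) * A ^ 6 * B ^ 10 + (5490537472 / 43046721) * A ^ 7 * B ^ 9 + (1329282560 /
        4782969) * A ^ 8 * B ^ 8 + (20023164928 / 43046721) * A ^ 9 * B ^ 7 + (19577411584 /
        43046721) * A ^ 10 * B ^ 6 + (3838664704 / 14348907) * A ^ 11 * B ^ 5 + (4217655296 /
        43046721) * A ^ 12 * B ^ 4 + (965550080 / 43046721) * A ^ 13 * B ^ 3 + (44351488 /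
        14348907) * A ^ 14 * B ^ 2 + (9797632 / 43046721) * A ^ 15 * B ^ 1 + (262144 / 43046721)
        * A ^ 16 * B ^ 0 := by
    rw [hA, hB]
    unfold TA
    ring
  rw [key]
  rcases hA0.eq_or_lt with h | h
  · have hB1 : 0 < B := by rw [hB]; rw [hA] at h; linarith
    positivity
  · positivity

theorem TB_pos (y : ℝ) (h1 : 1 ≤ y) (h2 : y ≤ 2) : 0 < TB y := by
  obtain ⟨A, hA⟩ : ∃ A, A = y - (1) := ⟨_, rfl⟩
  obtain ⟨B, hB⟩ : ∃ B, B = 2 - y := ⟨_, rfl⟩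
  have hA0 : 0 ≤ A := by rw [hA]; linarith
  have hB0 : 0 ≤ B := by rw [hB]; linarith
  have key : TB y =
      10 * A ^ 0 * B ^ 11 + 141 * A ^ 1 * B ^ 10 + 838 * A ^ 2 * B ^ 9 + 2783 * A ^ 3 * B ^ 8 +
        5791 * A ^ 4 * B ^ 7 + 8106 * A ^ 5 * B ^ 6 + 8136 * A ^ 6 * B ^ 5 + 6168 * A ^ 7 * B ^ 4
        + 3478 * A ^ 8 * B ^ 3 + 1281 * A ^ 9 * B ^ 2 + 250 * A ^ 10 * B ^ 1 + 25 * A ^ 11 * B ^
        0 := by
    rw [hA, hB]
    unfold TB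
    ring
  rw [key]
  rcases hA0.eq_or_lt with h | h
  · have hB1 : 0 < B := by rw [hB]; rw [hA] at h; linarith
    positivity
  · positivity

/-- `TA` and `TB` have no common zero in `[-2, 2]`. -/
theorem no_common (y : ℝ) (h1 : -2 ≤ y) (h2 : y ≤ 2) (hA : TA y = 0) (hB : TB y = 0) : False := by
  rcases le_total y 1 with h3 | h3
  · rcases le_total y (-1 / 2) with h4 | h4
    · rcases le_total y (-3 / 2) with h5 | h5
      · have := TA_neg1 y h1 (by linarith)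
        rw [hA] at this
        simp at this
      · have := TA_neg2 y (by linarith) (by linarith)
        rw [hA] at this
        simp at this
    · have := TA_neg3 y (by linarith) h3
      rw [hA] at this
      simp at this
  · have := TB_pos y h3 h2
    rw [hB] at this
    simp at this

theorem cheb (C : ℕ → ℝ) (y : ℝ) (h0 : C 0 = 2) (h1 : C 1 = y)
    (hrec : ∀ k, C (k + 2) = y * C (k + 1) - C k) :
    (79 + 90 * C 1 + 73 * C 2 + 51 * C 3 + 30 * C 4 + 22 * C 5 + 5 * C 6 + C 7 + C 20 =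
      (y ^ 2 + y - 1) ^ 2 * TA y) ∧
    (103 + 96 * C 1 + 73 * C 2 + 51 * C 3 + 27 * C 4 + 10 * C 5 + 2 * C 6 + C 7 + C 15 =
      (y ^ 2 + y - 1) ^ 2 * TB y) := by
  have h2 : C 2 = y ^ 2 - 2 := by
    rw [hrec 0, h1, h0]
    ring
  have h3 : C 3 = y ^ 3 - 3 * y := by
    rw [hrec 1, h2, h1]
    ring
  have h4 : C 4 = y ^ 4 - 4 * y ^ 2 + 2 := by
    rw [hrec 2, h3, h2]
    ring
  have h5 : C 5 = y ^ 5 - 5 * y ^ 3 + 5 * y := by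
    rw [hrec 3, h4, h3]
    ring
  have h6 : C 6 = y ^ 6 - 6 * y ^ 4 + 9 * y ^ 2 - 2 := by
    rw [hrec 4, h5, h4]
    ring
  have h7 : C 7 = y ^ 7 - 7 * y ^ 5 + 14 * y ^ 3 - 7 * y := by
    rw [hrec 5, h6, h5]
    ring
  have h8 : C 8 = y ^ 8 - 8 * y ^ 6 + 20 * y ^ 4 - 16 * y ^ 2 + 2 := by
    rw [hrec 6, h7, h6]
    ring
  have h9 : C 9 = y ^ 9 - 9 * y ^ 7 + 27 * y ^ 5 - 30 * y ^ 3 + 9 * y := by
    rw [hrec 7, h8, h7]
    ring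
  have h10 : C 10 = y ^ 10 - 10 * y ^ 8 + 35 * y ^ 6 - 50 * y ^ 4 + 25 * y ^ 2 - 2 := by
    rw [hrec 8, h9, h8]
    ring
  have h11 : C 11 = y ^ 11 - 11 * y ^ 9 + 44 * y ^ 7 - 77 * y ^ 5 + 55 * y ^ 3 - 11 * y := by
    rw [hrec 9, h10, h9]
    ring
  have h12 : C 12 = y ^ 12 - 12 * y ^ 10 + 54 * y ^ 8 - 112 * y ^ 6 + 105 * y ^ 4 - 36 * y ^ 2 +
    2 := by
    rw [hrec 10, h11, h10]
    ring
  have h13 : C 13 = y ^ 13 - 13 * y ^ 11 + 65 * y ^ 9 - 156 * y ^ 7 + 182 * y ^ 5 - 91 * y ^ 3 +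
    13 * y := by
    rw [hrec 11, h12, h11]
    ring
  have h14 : C 14 = y ^ 14 - 14 * y ^ 12 + 77 * y ^ 10 - 210 * y ^ 8 + 294 * y ^ 6 - 196 * y ^ 4
    + 49 * y ^ 2 - 2 := by
    rw [hrec 12, h13, h12]
    ring
  have h15 : C 15 = y ^ 15 - 15 * y ^ 13 + 90 * y ^ 11 - 275 * y ^ 9 + 450 * y ^ 7 - 378 * y ^ 5
    + 140 * y ^ 3 - 15 * y := by
    rw [hrec 13, h14, h13]
    ring
  have h16 : C 16 = y ^ 16 - 16 * y ^ 14 + 104 * y ^ 12 - 352 * y ^ 10 + 660 * y ^ 8 - 672 * y ^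
    6 + 336 * y ^ 4 - 64 * y ^ 2 + 2 := by
    rw [hrec 14, h15, h14]
    ring
  have h17 : C 17 = y ^ 17 - 17 * y ^ 15 + 119 * y ^ 13 - 442 * y ^ 11 + 935 * y ^ 9 - 1122 * y ^
    7 + 714 * y ^ 5 - 204 * y ^ 3 + 17 * y := by
    rw [hrec 15, h16, h15]
    ring
  have h18 : C 18 = y ^ 18 - 18 * y ^ 16 + 135 * y ^ 14 - 546 * y ^ 12 + 1287 * y ^ 10 - 1782 * y
    ^ 8 + 1386 * y ^ 6 - 540 * y ^ 4 + 81 * y ^ 2 - 2 := by
    rw [hrec 16, h17, h16]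
    ring
  have h19 : C 19 = y ^ 19 - 19 * y ^ 17 + 152 * y ^ 15 - 665 * y ^ 13 + 1729 * y ^ 11 - 2717 * y
    ^ 9 + 2508 * y ^ 7 - 1254 * y ^ 5 + 285 * y ^ 3 - 19 * y := by
    rw [hrec 17, h18, h17]
    ring
  have h20 : C 20 = y ^ 20 - 20 * y ^ 18 + 170 * y ^ 16 - 800 * y ^ 14 + 2275 * y ^ 12 - 4004 * y
    ^ 10 + 4290 * y ^ 8 - 2640 * y ^ 6 + 825 * y ^ 4 - 100 * y ^ 2 + 2 := by
    rw [hrec 18, h19, h18]
    ring
  constructor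
  · rw [h1, h2, h3, h4, h5, h6, h7, h20]
    unfold TA
    ring
  · rw [h1, h2, h3, h4, h5, h6, h7, h15]
    unfold TB
    ring

end Pool.Agent.Lib_helper43.NonInt
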