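import Mathlib
import Pool.Agent.Lib_helper43.NonInt.Eig
import Pool.Agent.Lib_helper43.NonInt.Poly

/-!
# The autocorrelations of the eigenvalue function
-/

set_option autoImplicit false

namespace Pool.Agent.Lib_helper43.NonInt

theorem hd_append {e : ℕ} (u : Fin 4 → ZMod 5) (w : Fin e → ZMod 5) : hd (Fin.append u w) = u := by
  funext i
  unfold hd
  rw [Fin.append_left]

theorem sum_hd {e : ℕ} (F : (Fin 4 → ZMod 5) → ℝ) :
    ∑ v : Fin (4 + e) → ZMod 5, F (hd v) = 5 ^ e * ∑ u, F u := by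
  rw [← (Fin.appendEquiv 4 e).sum_comp, Fintype.sum_prod_type, Finset.mul_sum]
  refine Finset.sum_congr rfl fun u _ => ?_
  have h1 : ∀ w : Fin e → ZMod 5, F (hd ((Fin.appendEquiv 4 e) (u, w))) = F u := by
    intro w
    have h2 : (Fin.appendEquiv 4 e) (u, w) = Fin.append u w := rfl
    rw [h2, hd_append]
  rw [Finset.sum_congr rfl fun w _ => h1 w, Finset.sum_const, Finset.card_univ]
  simp

theorem sum_idx (g : ℕ → ℕ → ℕ → ℕ → ℝ) :
    ∑ u : Fin 4 → ZMod 5, g (u 0).val (u 1).val (u 2).val (u 3).val =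
      ∑ x ∈ idx, g x.1 x.2.1 x.2.2.1 x.2.2.2 := by
  refine Finset.sum_nbij' (fun u => ((u 0).val, (u 1).val, (u 2).val, (u 3).val))
    (fun x => ![(x.1 : ZMod 5), (x.2.1 : ZMod 5), (x.2.2.1 : ZMod 5), (x.2.2.2 : ZMod 5)])
    ?_ ?_ ?_ ?_ ?_
  · intro u _
    simp only [idx, Finset.mem_product, Finset.mem_range]
    exact ⟨ZMod.val_lt _, ZMod.val_lt _, ZMod.val_lt _, ZMod.val_lt _⟩
  · intro x _
    exact Finset.mem_univ _
  · intro u _
    funext i
    fin_cases i <;> simp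
  · intro x hx
    simp only [idx, Finset.mem_product, Finset.mem_range] at hx
    obtain ⟨h1, h2, h3, h4⟩ := hx
    refine Prod.ext ?_ (Prod.ext ?_ (Prod.ext ?_ ?_))
    · exact ZMod.val_cast_of_lt h1
    · exact ZMod.val_cast_of_lt h2
    · exact ZMod.val_cast_of_lt h3
    · exact ZMod.val_cast_of_lt h4
  · intro u _
    rfl

/-- The first shift. -/
def kA : Fin 4 → ZMod 5 := ![0, 0, 0, 1]

/-- The second shift. -/
def kB : Fin 4 → ZMod 5 := ![0, 0, 1, 0]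

theorem val_succ (a : ZMod 5) : (a + 1).val = (a.val + 1) % 5 := by
  rw [ZMod.val_add]
  rfl

theorem N4_kA (u : Fin 4 → ZMod 5) :
    N4 (u + kA) = tab (u 0).val (u 1).val (u 2).val (((u 3).val + 1) % 5) := by
  unfold N4 kA
  simp only [Pi.add_apply]
  rw [← val_succ]
  simp

theorem N4_kB (u : Fin 4 → ZMod 5) :
    N4 (u + kB) = tab (u 0).val (u 1).val (((u 2).val + 1) % 5) (u 3).val := by
  unfold N4 kB
  simp only [Pi.add_apply]
  rw [← val_succ]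
  simp

theorem sum_hist (ex : ℕ × ℕ × ℕ × ℕ → ℕ) (co : List ℕ) (hex : ∀ x ∈ idx, ex x < 41)
    (hh : ∀ n < 41, (idx.filter fun x => ex x = n).card = co.getD n 0) (f : ℕ → ℝ) :
    ∑ x ∈ idx, f (ex x) = ∑ n ∈ Finset.range 41, (co.getD n 0 : ℝ) * f n := by
  have h1 : ∀ x ∈ idx, ex x ∈ Finset.range 41 := fun x hx => Finset.mem_range.2 (hex x hx)
  rw [← Finset.sum_fiberwise_of_maps_to h1]
  refine Finset.sum_congr rfl fun n hn => ?_
  have h2 : ∑ x ∈ idx with ex x = n, f (ex x) = ∑ x ∈ idx with ex x = n, f n :=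
    Finset.sum_congr rfl fun x hx => by rw [(Finset.mem_filter.1 hx).2]
  rw [h2, Finset.sum_const, hh n (Finset.mem_range.1 hn), nsmul_eq_mul]

theorem corrA (θ : ℝ) :
    ∑ u : Fin 4 → ZMod 5, Real.cos (θ * ((N4 u : ℝ) - N4 (u + kA))) =
      79 + 90 * (2 * Real.cos (1 * θ)) + 73 * (2 * Real.cos (2 * θ)) + 51 * (2 * Real.cos (3 * θ)) +
        30 * (2 * Real.cos (4 * θ)) + 22 * (2 * Real.cos (5 * θ)) + 5 * (2 * Real.cos (6 * θ)) +
        (2 * Real.cos (7 * θ)) + (2 * Real.cos (20 * θ)) := by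
  have h1 : ∑ u : Fin 4 → ZMod 5, Real.cos (θ * ((N4 u : ℝ) - N4 (u + kA))) =
      ∑ x ∈ idx, Real.cos (θ * ((tab x.1 x.2.1 x.2.2.1 x.2.2.2 : ℝ) -
        tab x.1 x.2.1 x.2.2.1 ((x.2.2.2 + 1) % 5))) := by
    rw [← sum_idx fun a b c d => Real.cos (θ * ((tab a b c d : ℝ) - tab a b c ((d + 1) % 5)))]
    refine Finset.sum_congr rfl fun u _ => ?_
    rw [N4_kA]
    rfl
  have h2 : ∀ x ∈ idx, Real.cos (θ * ((tab x.1 x.2.1 x.2.2.1 x.2.2.2 : ℝ) -
        tab x.1 x.2.1 x.2.2.1 ((x.2.2.2 + 1) % 5))) = Real.cos (θ * ((exA x : ℝ) - 20)) := by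
    intro x hx
    congr 2
    unfold exA
    rw [Nat.cast_sub (exA_le x hx).2]
    push_cast
    ring
  rw [h1, Finset.sum_congr rfl h2, sum_hist exA coefA (fun x hx => (exA_le x hx).1) histA
    (fun n => Real.cos (θ * ((n : ℝ) - 20)))]
  have h3 : ∀ a : ℝ, Real.cos (θ * (-a)) = Real.cos (a * θ) := by
    intro a
    rw [mul_neg, Real.cos_neg, mul_comm]
  have h4 : ∀ a : ℝ, Real.cos (θ * a) = Real.cos (a * θ) := by
    intro a
    rw [mul_comm]
  simp only [Finset.sum_range_succ, Finset.sum_range_zero, coefA, List.getD_cons_zero,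
    List.getD_cons_succ]
  norm_num [h3, h4]
  ring

theorem corrB (θ : ℝ) :
    ∑ u : Fin 4 → ZMod 5, Real.cos (θ * ((N4 u : ℝ) - N4 (u + kB))) =
      103 + 96 * (2 * Real.cos (1 * θ)) + 73 * (2 * Real.cos (2 * θ)) + 51 * (2 * Real.cos (3 * θ)) +
        27 * (2 * Real.cos (4 * θ)) + 10 * (2 * Real.cos (5 * θ)) + 2 * (2 * Real.cos (6 * θ)) +
        (2 * Real.cos (7 * θ)) + (2 * Real.cos (15 * θ)) := by
  have h1 : ∑ u : Fin 4 → ZMod 5, Real.cos (θ * ((N4 u : ℝ) - N4 (u + kB))) =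
      ∑ x ∈ idx, Real.cos (θ * ((tab x.1 x.2.1 x.2.2.1 x.2.2.2 : ℝ) -
        tab x.1 x.2.1 ((x.2.2.1 + 1) % 5) x.2.2.2)) := by
    rw [← sum_idx fun a b c d => Real.cos (θ * ((tab a b c d : ℝ) - tab a b ((c + 1) % 5) d))]
    refine Finset.sum_congr rfl fun u _ => ?_
    rw [N4_kB]
    rfl
  have h2 : ∀ x ∈ idx, Real.cos (θ * ((tab x.1 x.2.1 x.2.2.1 x.2.2.2 : ℝ) -
        tab x.1 x.2.1 ((x.2.2.1 + 1) % 5) x.2.2.2)) = Real.cos (θ * ((exB x : ℝ) - 20)) := by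
    intro x hx
    congr 2
    unfold exB
    rw [Nat.cast_sub (exB_le x hx).2]
    push_cast
    ring
  rw [h1, Finset.sum_congr rfl h2, sum_hist exB coefB (fun x hx => (exB_le x hx).1) histB
    (fun n => Real.cos (θ * ((n : ℝ) - 20)))]
  have h3 : ∀ a : ℝ, Real.cos (θ * (-a)) = Real.cos (a * θ) := by
    intro a
    rw [mul_neg, Real.cos_neg, mul_comm]
  have h4 : ∀ a : ℝ, Real.cos (θ * a) = Real.cos (a * θ) := by
    intro a
    rw [mul_comm]
  simp only [Finset.sum_range_succ, Finset.sum_range_zero, coefB, List.getD_cons_zero,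
    List.getD_cons_succ]
  norm_num [h3, h4]
  ring

/-- If both autocorrelations vanish, then `2 cos θ` is a root of `y² + y - 1`. -/
theorem golden (θ : ℝ)
    (hA : ∑ u : Fin 4 → ZMod 5, Real.cos (θ * ((N4 u : ℝ) - N4 (u + kA))) = 0)
    (hB : ∑ u : Fin 4 → ZMod 5, Real.cos (θ * ((N4 u : ℝ) - N4 (u + kB))) = 0) :
    (2 * Real.cos θ) ^ 2 + 2 * Real.cos θ - 1 = 0 := by
  have hrec : ∀ k : ℕ, 2 * Real.cos (((k + 2 : ℕ) : ℝ) * θ) =
      (2 * Real.cos θ) * (2 * Real.cos (((k + 1 : ℕ) : ℝ) * θ)) - 2 * Real.cos ((k : ℝ) * θ) := by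
    intro k
    have h1 : Real.cos (((k + 2 : ℕ) : ℝ) * θ) =
        Real.cos (((k + 1 : ℕ) : ℝ) * θ) * Real.cos θ - Real.sin (((k + 1 : ℕ) : ℝ) * θ) *
          Real.sin θ := by
      rw [← Real.cos_add]
      congr 1
      push_cast
      ring
    have h2 : Real.cos ((k : ℝ) * θ) =
        Real.cos (((k + 1 : ℕ) : ℝ) * θ) * Real.cos θ + Real.sin (((k + 1 : ℕ) : ℝ) * θ) *
          Real.sin θ := by
      rw [← Real.cos_sub]
      congr 1
      push_cast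
      ring
    rw [h1, h2]
    ring
  obtain ⟨c1, c2⟩ := cheb (fun k => 2 * Real.cos ((k : ℝ) * θ)) (2 * Real.cos θ) (by simp)
    (by simp) hrec
  rw [corrA] at hA
  rw [corrB] at hB
  by_contra hne
  have hy1 : -2 ≤ 2 * Real.cos θ := by linarith [Real.neg_one_le_cos θ]
  have hy2 : 2 * Real.cos θ ≤ 2 := by linarith [Real.cos_le_one θ]
  have h3 : ((2 * Real.cos θ) ^ 2 + 2 * Real.cos θ - 1) ^ 2 ≠ 0 := pow_ne_zero 2 hne
  have hA' : ((2 * Real.cos θ) ^ 2 + 2 * Real.cos θ - 1) ^ 2 * TA (2 * Real.cos θ) = 0 := by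
    rw [← c1, ← hA]
    norm_num
  have hB' : ((2 * Real.cos θ) ^ 2 + 2 * Real.cos θ - 1) ^ 2 * TB (2 * Real.cos θ) = 0 := by
    rw [← c2, ← hB]
    norm_num
  exact no_common _ hy1 hy2 ((mul_eq_zero.1 hA').resolve_left h3)
    ((mul_eq_zero.1 hB').resolve_left h3)

end Pool.Agent.Lib_helper43.NonInt
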