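import Mathlib
import Pool.Agent.Lib_helper43.NonInt.Corr

/-!
# Uniform mixing determines the time
-/

set_option autoImplicit false

open Matrix Complex

namespace Pool.Agent.Lib_helper43.NonInt

open Pool.Agent.Lib_helper58.CayleyUM

instance fact5 : Fact (Nat.Prime 5) := ⟨by norm_num⟩

/-- `D` lies in the subgroup of the vectors `x` with `x_2 = x_3 = 0`. -/
def InK {e : ℕ} (D : Finset (Fin (4 + e) → ZMod 5)) : Prop :=
  ∀ x ∈ D, x (Fin.castAdd e 2) = 0 ∧ x (Fin.castAdd e 3) = 0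

theorem disj {e : ℕ} {D : Finset (Fin (4 + e) → ZMod 5)} (hD : InK D) : Disjoint (C0 e) D := by
  rw [Finset.disjoint_left]
  intro x hx hxD
  obtain ⟨p, hp, k, hk, rfl⟩ := mem_C0.1 hx
  obtain ⟨h2, h3⟩ := hD _ hxD
  rw [Pi.smul_apply, emb_hd, smul_eq_mul] at h2 h3
  exact pts_off p hp ⟨(mul_eq_zero.1 h2).resolve_left hk, (mul_eq_zero.1 h3).resolve_left hk⟩

theorem lam_union {e : ℕ} {D : Finset (Fin (4 + e) → ZMod 5)} (hD : InK D)
    (v : Fin (4 + e) → ZMod 5) :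
    lam (C0 e ∪ D) (chi v) = 5 * (N4 (hd v) : ℂ) - 21 + lam D (chi v) := by
  rw [← lam_C0]
  unfold lam
  exact Finset.sum_union (disj hD)

/-- The vector with the first four coordinates `κ`. -/
def sh (e : ℕ) (κ : Fin 4 → ZMod 5) : Fin (4 + e) → ZMod 5 := Fin.append κ 0

theorem hd_sh {e : ℕ} (v : Fin (4 + e) → ZMod 5) (κ : Fin 4 → ZMod 5) :
    hd (v + sh e κ) = hd v + κ := by
  funext i
  unfold hd sh
  rw [Pi.add_apply, Fin.append_left]
  rfl

theorem lam_sh {e : ℕ} {D : Finset (Fin (4 + e) → ZMod 5)} (hD : InK D)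
    (v : Fin (4 + e) → ZMod 5) (κ : Fin 4 → ZMod 5) (h0 : κ 0 = 0) (h1 : κ 1 = 0) :
    lam D (chi (v + sh e κ)) = lam D (chi v) := by
  unfold lam
  refine Finset.sum_congr rfl fun x hx => ?_
  obtain ⟨h2, h3⟩ := hD x hx
  rw [chi_add, AddChar.add_apply]
  have h4 : chi (sh e κ) x = 1 := by
    rw [chi_apply, Fin.sum_univ_add]
    have h5 : ∀ i : Fin 4, sh e κ (Fin.castAdd e i) = κ i := fun i => by
      unfold sh
      rw [Fin.append_left]
    have h6 : ∀ i : Fin e, sh e κ (Fin.natAdd 4 i) = 0 := fun i => by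
      unfold sh
      rw [Fin.append_right]
      rfl
    simp only [h5, h6, zero_mul, Finset.sum_const_zero, add_zero]
    rw [Fin.sum_univ_four, h0, h1, h2, h3]
    simp
  rw [h4, mul_one]

theorem ph_eq' {e : ℕ} {D : Finset (Fin (4 + e) → ZMod 5)} (hD : InK D)
    (hs : ∀ x ∈ D, -x ∈ D) (t : ℝ) (v : Fin (4 + e) → ZMod 5) :
    ph (C0 e ∪ D) t (chi v) =
      Complex.exp (((t * (5 * (N4 (hd v) : ℝ) - 21 + (lam D (chi v)).re) : ℝ) : ℂ) * I) := by
  unfold ph
  rw [lam_union hD, ← lam_re D hs (chi v)]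
  congr 1
  push_cast
  simp only [Complex.ofReal_re]
  ring

theorem corr_zero {e : ℕ} {D : Finset (Fin (4 + e) → ZMod 5)} (hD : InK D)
    (hs : ∀ x ∈ D, -x ∈ D) (t : ℝ) (hF : Flat (C0 e ∪ D) t) (κ : Fin 4 → ZMod 5)
    (h0 : κ 0 = 0) (h1 : κ 1 = 0) (hκ : κ ≠ 0) :
    ∑ u : Fin 4 → ZMod 5, Real.cos ((5 * t) * ((N4 u : ℝ) - N4 (u + κ))) = 0 := by
  have hη : chi (sh e κ) ≠ 0 := by
    rw [Ne, chi_eq_zero_iff]
    intro h
    apply hκ
    funext i
    have h2 := congrFun h (Fin.castAdd e i)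
    unfold sh at h2
    rw [Fin.append_left] at h2
    exact h2
  have h2 := autocorr hF (chi (sh e κ)) hη
  rw [sum_chi] at h2
  have h3 : ∀ v : Fin (4 + e) → ZMod 5, ph (C0 e ∪ D) t (chi v) *
      (starRingEnd ℂ) (ph (C0 e ∪ D) t (chi v + chi (sh e κ))) =
      Complex.exp ((((5 * t) * ((N4 (hd v) : ℝ) - N4 (hd v + κ)) : ℝ) : ℂ) * I) := by
    intro v
    rw [← chi_add, ph_eq' hD hs, ph_eq' hD hs, hd_sh, lam_sh hD v κ h0 h1, ← Complex.exp_conj,
      ← Complex.exp_add]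
    congr 1
    rw [map_mul, Complex.conj_ofReal, Complex.conj_I]
    push_cast
    ring
  rw [Finset.sum_congr rfl fun v _ => h3 v] at h2
  have h4 : ∑ v : Fin (4 + e) → ZMod 5,
      Real.cos ((5 * t) * ((N4 (hd v) : ℝ) - N4 (hd v + κ))) = 0 := by
    have h5 := congrArg Complex.re h2
    rw [Complex.re_sum, Complex.zero_re] at h5
    rw [← h5]
    refine Finset.sum_congr rfl fun v _ => ?_
    rw [Complex.exp_ofReal_mul_I_re]
  rw [sum_hd fun u => Real.cos ((5 * t) * ((N4 u : ℝ) - N4 (u + κ)))] at h4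
  exact (mul_eq_zero.1 h4).resolve_left (by positivity)

/-- Uniform mixing at `t` implies `t = 2 π m / 25` with `m` not divisible by `5`. -/
theorem time_of_flat {e : ℕ} {D : Finset (Fin (4 + e) → ZMod 5)} (hD : InK D)
    (hs : ∀ x ∈ D, -x ∈ D) (t : ℝ) (hF : Flat (C0 e ∪ D) t) :
    ∃ m : ℤ, ¬ (5 : ℤ) ∣ m ∧ t = 2 * Real.pi * m / 25 := by
  have hA := corr_zero hD hs t hF kA rfl rfl (by decide)
  have hB := corr_zero hD hs t hF kB rfl rfl (by decide)
  have hg := golden (5 * t) hA hB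
  have h5 : Real.cos (5 * (5 * t)) = 1 := by
    have hrec : ∀ a : ℝ, Real.cos (a + 5 * t) + Real.cos (a - 5 * t) =
        2 * Real.cos (5 * t) * Real.cos a := by
      intro a
      rw [Real.cos_add, Real.cos_sub]
      ring
    have c2 := hrec (5 * t)
    have c3 := hrec (2 * (5 * t))
    have c4 := hrec (3 * (5 * t))
    have c5 := hrec (4 * (5 * t))
    rw [show 5 * t + 5 * t = 2 * (5 * t) by ring, show 5 * t - 5 * t = 0 by ring,
      Real.cos_zero] at c2
    rw [show 2 * (5 * t) + 5 * t = 3 * (5 * t) by ring,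
      show 2 * (5 * t) - 5 * t = 5 * t by ring] at c3
    rw [show 3 * (5 * t) + 5 * t = 4 * (5 * t) by ring,
      show 3 * (5 * t) - 5 * t = 2 * (5 * t) by ring] at c4
    rw [show 4 * (5 * t) + 5 * t = 5 * (5 * t) by ring,
      show 4 * (5 * t) - 5 * t = 3 * (5 * t) by ring] at c5
    set c := Real.cos (5 * t) with hc
    set x2 := Real.cos (2 * (5 * t)) with hx2
    set x3 := Real.cos (3 * (5 * t)) with hx3
    set x4 := Real.cos (4 * (5 * t)) with hx4
    set x5 := Real.cos (5 * (5 * t)) with hx5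
    have e2 : x2 = 2 * c ^ 2 - 1 := by linear_combination c2
    have e3 : x3 = 2 * c * x2 - c := by linear_combination c3
    have e4 : x4 = 2 * c * x3 - x2 := by linear_combination c4
    have e5 : x5 = 2 * c * x4 - x3 := by linear_combination c5
    rw [e5, e4, e3, e2]
    linear_combination (4 * c ^ 3 - 2 * c ^ 2 - 3 * c + 1) * hg
  obtain ⟨m, hm⟩ := (Real.cos_eq_one_iff _).1 h5
  refine ⟨m, ?_, by linarith⟩
  rintro ⟨k, rfl⟩
  have h6 : 5 * t = (k : ℝ) * (2 * Real.pi) := by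
    push_cast at hm
    linarith
  have h7 : Real.cos (5 * t) = 1 := (Real.cos_eq_one_iff _).2 ⟨k, h6.symm⟩
  rw [h7] at hg
  norm_num at hg

end Pool.Agent.Lib_helper43.NonInt
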