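import Mathlib
import Pool.Agent.Lib_helper43.NonInt.Conv

/-!
# Uniform mixing at the times `2 π m / 25` for `e = 0`
-/

set_option autoImplicit false

open Matrix Complex

namespace Pool.Agent.Lib_helper43.NonInt

open Pool.Agent.Lib_helper58.CayleyUM

/-- Quadruples as vectors. -/
def qv : (ZMod 5 × ZMod 5) × (ZMod 5 × ZMod 5) ≃ (Fin (4 + 0) → ZMod 5) where
  toFun q := (![q.1.1, q.1.2, q.2.1, q.2.2] : Fin 4 → ZMod 5)
  invFun v := ((v (Fin.castAdd 0 0), v (Fin.castAdd 0 1)), (v (Fin.castAdd 0 2), v (Fin.castAdd 0 3)))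
  left_inv q := rfl
  right_inv v := by
    funext i
    match i with
    | ⟨0, _⟩ => rfl
    | ⟨1, _⟩ => rfl
    | ⟨2, _⟩ => rfl
    | ⟨3, _⟩ => rfl

theorem hd_qv (a b c d : ZMod 5) : hd (qv ((a, b), (c, d))) = ![a, b, c, d] := by
  funext i
  match i with
  | ⟨0, _⟩ => rfl
  | ⟨1, _⟩ => rfl
  | ⟨2, _⟩ => rfl
  | ⟨3, _⟩ => rfl

theorem dot_qv (a b c d : ZMod 5) (x : Fin (4 + 0) → ZMod 5) :
    ∑ i, qv ((a, b), (c, d)) i * x i = a * x (Fin.castAdd 0 0) + b * x (Fin.castAdd 0 1) +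
      c * x (Fin.castAdd 0 2) + d * x (Fin.castAdd 0 3) :=
  Fin.sum_univ_four (fun i : Fin 4 => qv ((a, b), (c, d)) i * x i)

theorem sum_std (s : ZMod 5) :
    ∑ c : ZMod 5, ZMod.stdAddChar (N := 5) (c * s) = if s = 0 then (5 : ℂ) else 0 := by
  rw [AddChar.sum_mulShift (R := ZMod 5) (R' := ℂ) s (ZMod.isPrimitive_stdAddChar 5)]
  simp

theorem std_nat (m : ℤ) (N : ℕ) : Complex.exp (2 * Real.pi * I * ((m * N : ℤ) : ℂ) / 5) =
    ZMod.stdAddChar (N := 5) ((m : ZMod 5) * (N : ZMod 5)) := by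
  have h := ZMod.stdAddChar_coe (N := 5) (m * (N : ℤ))
  push_cast at h ⊢
  exact h.symm

/-- The permutation shifted and scaled. -/
theorem exists_ab (m : ZMod 5) (hm : m ≠ 0) (x y : ZMod 5) :
    ∃ a b : ZMod 5, (m * pi1 a b + x = 0 ∧ m * pi2 a b + y = 0) ∧
      ∀ a' b' : ZMod 5, m * pi1 a' b' + x = 0 → m * pi2 a' b' + y = 0 → a' = a ∧ b' = b := by
  have hinj : Function.Injective fun q : ZMod 5 × ZMod 5 =>
      (m * pi1 q.1 q.2 + x, m * pi2 q.1 q.2 + y) := by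
    rintro ⟨a, b⟩ ⟨a', b'⟩ h
    have h1 : m * pi1 a b + x = m * pi1 a' b' + x := congrArg Prod.fst h
    have h2 : m * pi2 a b + y = m * pi2 a' b' + y := congrArg Prod.snd h
    have h3 := mul_left_cancel₀ hm (add_right_cancel h1)
    have h4 := mul_left_cancel₀ hm (add_right_cancel h2)
    obtain ⟨h5, h6⟩ := pi_inj a b a' b' h3 h4
    exact Prod.ext h5 h6
  obtain ⟨⟨a, b⟩, hab⟩ := (Finite.injective_iff_surjective.1 hinj) (0, 0)
  refine ⟨a, b, ⟨congrArg Prod.fst hab, congrArg Prod.snd hab⟩, fun a' b' h1 h2 => ?_⟩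
  have h3 : (a', b') = (a, b) := hinj (by
    simp only
    rw [h1, h2]
    exact hab.symm)
  exact ⟨congrArg Prod.fst h3, congrArg Prod.snd h3⟩

theorem flat_of_time {D : Finset (Fin (4 + 0) → ZMod 5)} (hD : InK D)
    (hs : ∀ x ∈ D, -x ∈ D) (m : ℤ) (hm : ¬ (5 : ℤ) ∣ m) (a b : Fin (4 + 0) → ZMod 5) :
    ‖walk (C0 0 ∪ D) (I * ((2 * Real.pi * m / 25 : ℝ) : ℂ)) a b‖ ^ 2 = 1 / 625 := by
  have hm0 : (m : ZMod 5) ≠ 0 := by
    intro h
    exact hm ((ZMod.intCast_zmod_eq_zero_iff_dvd m 5).1 h)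
  set t : ℝ := 2 * Real.pi * m / 25 with ht
  set x : Fin (4 + 0) → ZMod 5 := a - b with hx
  set y0 := x (Fin.castAdd 0 0) with hy0
  set y1 := x (Fin.castAdd 0 1) with hy1
  set y2 := x (Fin.castAdd 0 2) with hy2
  set y3 := x (Fin.castAdd 0 3) with hy3
  have hwalk := walk_apply (C0 0 ∪ D) (I * (t : ℂ)) a b
  rw [sum_chi, ← qv.sum_comp, Fintype.sum_prod_type] at hwalk
  -- the eigenvalue of `D` depends only on the first two coordinates
  let HD : ZMod 5 → ZMod 5 → ℝ := fun p q => (lam D (chi (qv ((p, q), (0, 0))))).re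
  have hHD : ∀ p q c d, (lam D (chi (qv ((p, q), (c, d))))) = ((HD p q : ℝ) : ℂ) := by
    intro p q c d
    have h1 : lam D (chi (qv ((p, q), (c, d)))) = lam D (chi (qv ((p, q), (0, 0)))) := by
      unfold lam
      refine Finset.sum_congr rfl fun z hz => ?_
      obtain ⟨h2, h3⟩ := hD z hz
      rw [chi_apply, chi_apply, dot_qv, dot_qv, h2, h3]
      simp
    rw [h1]
    exact (lam_re D hs _).symm
  have hterm : ∀ p q c d : ZMod 5,
      Complex.exp (I * (t : ℂ) * lam (C0 0 ∪ D) (chi (qv ((p, q), (c, d))))) *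
        chi (qv ((p, q), (c, d))) x =
      (Complex.exp (((t * (HD p q - 21) : ℝ) : ℂ) * I) *
        ZMod.stdAddChar (N := 5) ((m : ZMod 5) * (tab p.val q.val 0 0 : ℕ) + p * y0 + q * y1)) *
        (ZMod.stdAddChar (N := 5) (c * ((m : ZMod 5) * pi1 p q + y2)) *
          ZMod.stdAddChar (N := 5) (d * ((m : ZMod 5) * pi2 p q + y3))) := by
    intro p q c d
    have h1 : I * (t : ℂ) * lam (C0 0 ∪ D) (chi (qv ((p, q), (c, d)))) =
        ((t * (HD p q - 21) : ℝ) : ℂ) * I +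
          2 * Real.pi * I * ((m * (N4 ![p, q, c, d] : ℕ) : ℤ) : ℂ) / 5 := by
      rw [lam_union hD, hd_qv, hHD, ht]
      push_cast
      ring
    have h2 : (N4 ![p, q, c, d] : ZMod 5) = (tab p.val q.val 0 0 : ℕ) + c * pi1 p q + d * pi2 p q :=
      cnt_mod p q c d
    rw [h1, Complex.exp_add, std_nat, h2, chi_apply, dot_qv, mul_assoc, mul_assoc,
      ← AddChar.map_add_eq_mul, ← AddChar.map_add_eq_mul, ← AddChar.map_add_eq_mul]
    congr 2
    ring
  have hinner : ∀ p q : ZMod 5, ∑ cd : ZMod 5 × ZMod 5,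
      Complex.exp (I * (t : ℂ) * lam (C0 0 ∪ D) (chi (qv ((p, q), cd)))) *
        chi (qv ((p, q), cd)) x =
      (Complex.exp (((t * (HD p q - 21) : ℝ) : ℂ) * I) *
        ZMod.stdAddChar (N := 5) ((m : ZMod 5) * (tab p.val q.val 0 0 : ℕ) + p * y0 + q * y1)) *
        ((if (m : ZMod 5) * pi1 p q + y2 = 0 then (5 : ℂ) else 0) *
          (if (m : ZMod 5) * pi2 p q + y3 = 0 then (5 : ℂ) else 0)) := by
    intro p q
    rw [Fintype.sum_prod_type]
    simp only [hterm]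
    rw [← sum_std, ← sum_std, Finset.sum_mul_sum, Finset.mul_sum]
    refine Finset.sum_congr rfl fun c _ => ?_
    rw [Finset.mul_sum]
  obtain ⟨a₀, b₀, ⟨hab1, hab2⟩, huniq⟩ := exists_ab (m : ZMod 5) hm0 y2 y3
  have hsum : ∑ pq : ZMod 5 × ZMod 5, ∑ cd : ZMod 5 × ZMod 5,
      Complex.exp (I * (t : ℂ) * lam (C0 0 ∪ D) (chi (qv (pq, cd)))) * chi (qv (pq, cd)) x =
      (Complex.exp (((t * (HD a₀ b₀ - 21) : ℝ) : ℂ) * I) *
        ZMod.stdAddChar (N := 5) ((m : ZMod 5) * (tab a₀.val b₀.val 0 0 : ℕ) + a₀ * y0 + b₀ * y1)) *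
        (5 * 5) := by
    rw [Finset.sum_eq_single (a₀, b₀)]
    · rw [hinner, if_pos hab1, if_pos hab2]
    · rintro ⟨p, q⟩ _ hne
      rw [hinner]
      by_cases h1 : (m : ZMod 5) * pi1 p q + y2 = 0
      · by_cases h2 : (m : ZMod 5) * pi2 p q + y3 = 0
        · exfalso
          obtain ⟨h3, h4⟩ := huniq p q h1 h2
          exact hne (Prod.ext h3 h4)
        · rw [if_neg h2, mul_zero, mul_zero]
      · rw [if_neg h1, zero_mul, mul_zero]
    · intro h
      exact absurd (Finset.mem_univ _) h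
  rw [hsum] at hwalk
  have hcard : (Fintype.card (Fin (4 + 0) → ZMod 5) : ℂ) = 625 := by
    have h : Fintype.card (Fin (4 + 0) → ZMod 5) = 625 := by
      rw [Fintype.card_fun, ZMod.card, Fintype.card_fin]
      norm_num
    rw [h]
    norm_num
  rw [hcard] at hwalk
  have hn := congrArg norm hwalk
  rw [norm_mul, norm_mul, norm_mul, Complex.norm_exp_ofReal_mul_I] at hn
  have hst : ∀ z : ZMod 5, ‖ZMod.stdAddChar (N := 5) z‖ = 1 := fun z => AddChar.norm_apply _ z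
  rw [hst] at hn
  norm_num at hn
  have h2 : ‖walk (C0 0 ∪ D) (I * (t : ℂ)) a b‖ = 25 / 625 := by linarith
  rw [h2]
  norm_num

end Pool.Agent.Lib_helper43.NonInt
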