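import Mathlib
import Pool.Agent.Lib_helper43.NonInt.Conv

/-!
# When are the eigenvalues integers?
-/

set_option autoImplicit false

open Matrix Complex

namespace Pool.Agent.Lib_helper43.NonInt

open Pool.Agent.Lib_helper58.CayleyUM

/-- A Galois conjugation: an integral value at `v` is the value at `2 v`. -/
theorem lam_two {n : ℕ} (D : Finset (Fin n → ZMod 5)) (v : Fin n → ZMod 5) (k : ℤ)
    (h : lam D (chi v) = k) : lam D (chi (v + v)) = k := by
  classical
  set ζ : ℂ := ZMod.stdAddChar (N := 5) 1 with hζ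
  have hprim : IsPrimitiveRoot ζ 5 := by
    have h1 : ζ = Complex.exp (2 * Real.pi * I / (5 : ℕ)) := by
      rw [hζ]
      have h2 := ZMod.stdAddChar_coe (N := 5) 1
      push_cast at h2
      rw [h2]
      push_cast
      ring_nf
    rw [h1]
    exact Complex.isPrimitiveRoot_exp 5 (by norm_num)
  have hstd : ∀ s : ZMod 5, ZMod.stdAddChar (N := 5) s = ζ ^ s.val := by
    intro s
    rw [hζ, ← AddChar.map_nsmul_eq_pow, nsmul_eq_mul, mul_one, ZMod.natCast_zmod_val]
  let P : Polynomial ℤ := ∑ x ∈ D, Polynomial.X ^ (∑ i, v i * x i).val - Polynomial.C k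
  have hP : Polynomial.aeval ζ P = 0 := by
    simp only [P, map_sub, map_sum, map_pow, Polynomial.aeval_X]
    rw [Polynomial.aeval_C]
    have h1 : ∑ x ∈ D, ζ ^ (∑ i, v i * x i).val = lam D (chi v) := by
      unfold lam
      refine Finset.sum_congr rfl fun x _ => ?_
      rw [chi_apply, hstd]
    rw [h1, h]
    simp
  have hdvd : Polynomial.cyclotomic 5 ℤ ∣ P := by
    rw [Polynomial.cyclotomic_eq_minpoly hprim (by norm_num)]
    exact minpoly.isIntegrallyClosed_dvd (hprim.isIntegral (by norm_num)) hP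
  have hroot : Polynomial.aeval (ζ ^ 2) (Polynomial.cyclotomic 5 ℤ) = 0 := by
    have h2 : IsPrimitiveRoot (ζ ^ 2) 5 := hprim.pow_of_coprime 2 (by norm_num)
    rw [Polynomial.aeval_def, ← Polynomial.eval_map, Polynomial.map_cyclotomic]
    exact h2.isRoot_cyclotomic (by norm_num)
  obtain ⟨R, hR⟩ := hdvd
  have hP2 : Polynomial.aeval (ζ ^ 2) P = 0 := by
    rw [hR, map_mul, hroot, zero_mul]
  simp only [P, map_sub, map_sum, map_pow, Polynomial.aeval_X] at hP2
  rw [Polynomial.aeval_C] at hP2
  have h3 : lam D (chi (v + v)) = ∑ x ∈ D, (ζ ^ 2) ^ (∑ i, v i * x i).val := by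
    unfold lam
    refine Finset.sum_congr rfl fun x _ => ?_
    rw [chi_add, AddChar.add_apply, chi_apply, hstd, ← pow_mul, ← pow_add]
    congr 1
    ring
  rw [h3]
  have h4 := sub_eq_zero.1 hP2
  rw [h4]
  simp

/-- The indicator function of `D` from the eigenvalues. -/
theorem inversion {n : ℕ} (D : Finset (Fin n → ZMod 5)) (x : Fin n → ZMod 5) :
    ∑ v : Fin n → ZMod 5, lam D (chi v) * chi v (-x) = if x ∈ D then (5 : ℂ) ^ n else 0 := by
  unfold lam
  have h1 : ∀ v : Fin n → ZMod 5, (∑ c ∈ D, chi v c) * chi v (-x) =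
      ∑ c ∈ D, ZMod.stdAddChar (N := 5) (∑ i, v i * (c - x) i) := by
    intro v
    rw [Finset.sum_mul]
    refine Finset.sum_congr rfl fun c _ => ?_
    rw [← AddChar.map_add_eq_mul, chi_apply, ← sub_eq_add_neg]
  rw [Finset.sum_congr rfl fun v _ => h1 v, Finset.sum_comm]
  simp only [sum_chi_apply, sub_eq_zero]
  rw [Finset.sum_ite_eq' D x]

theorem closed_of_integral {n : ℕ} (D : Finset (Fin n → ZMod 5))
    (h : ∀ v : Fin n → ZMod 5, ∃ k : ℤ, lam D (chi v) = k) (x : Fin n → ZMod 5) (hx : x ∈ D) :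
    x + x ∈ D := by
  have h1 : ∀ v : Fin n → ZMod 5, lam D (chi (v + v)) = lam D (chi v) := by
    intro v
    obtain ⟨k, hk⟩ := h v
    rw [lam_two D v k hk, hk]
  have h2 := inversion D (x + x)
  have h3 := inversion D x
  rw [if_pos hx] at h3
  have hbij : Function.Bijective fun v : Fin n → ZMod 5 => v + v := by
    rw [Fintype.bijective_iff_injective_and_card]
    refine ⟨fun v w hvw => ?_, rfl⟩
    funext i
    have h4 : v i + v i = w i + w i := congrFun hvw i
    have h5 : (2 : ZMod 5) * v i = 2 * w i := by linear_combination h4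
    exact mul_left_cancel₀ (by decide) h5
  have h4 : ∑ v : Fin n → ZMod 5, lam D (chi v) * chi v (-(x + x)) =
      ∑ v : Fin n → ZMod 5, lam D (chi v) * chi v (-x) := by
    rw [← Fintype.sum_bijective _ hbij (fun v => lam D (chi (v + v)) * chi (v + v) (-x))
      (fun v => lam D (chi v) * chi v (-x)) (fun v => rfl)]
    refine Finset.sum_congr rfl fun v _ => ?_
    rw [h1, chi_add, AddChar.add_apply, neg_add, AddChar.map_add_eq_mul]
  rw [h2, h3] at h4
  by_contra hne
  rw [if_neg hne] at h4
  exact (pow_ne_zero n (by norm_num : (5 : ℂ) ≠ 0)) h4.symm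

theorem integral_of_closed {n : ℕ} (D : Finset (Fin n → ZMod 5))
    (h : ∀ x ∈ D, x + x ∈ D) (v : Fin n → ZMod 5) : ∃ k : ℤ, lam D (chi v) = k := by
  classical
  -- closed under all nonzero multiples
  have hk : ∀ k : ZMod 5, k ≠ 0 → ∀ x ∈ D, k • x ∈ D := by
    intro k hk x hx
    have h2 : (2 : ZMod 5) • x ∈ D := by
      rw [two_smul]
      exact h x hx
    have h4 : (4 : ZMod 5) • x ∈ D := by
      have := h _ h2
      rwa [← add_smul, show (2 + 2 : ZMod 5) = 4 by decide] at this
    have h3 : (3 : ZMod 5) • x ∈ D := by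
      have := h _ h4
      rwa [← add_smul, show (4 + 4 : ZMod 5) = 3 by decide] at this
    have h1 : (1 : ZMod 5) • x ∈ D := by rwa [one_smul]
    have hcases : ∀ k : ZMod 5, k ≠ 0 → k = 1 ∨ k = 2 ∨ k = 3 ∨ k = 4 := by decide
    rcases hcases k hk with rfl | rfl | rfl | rfl
    · exact h1
    · exact h2
    · exact h3
    · exact h4
  have hsum : ∀ k : ZMod 5, k ≠ 0 → ∑ x ∈ D, chi v (k • x) = lam D (chi v) := by
    intro k hk0
    have hinj : Set.InjOn (fun x : Fin n → ZMod 5 => k • x) (D : Set (Fin n → ZMod 5)) := by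
      intro x _ y _ hxy
      exact smul_right_injective _ hk0 hxy
    have himg : D.image (fun x => k • x) = D := by
      apply Finset.eq_of_subset_of_card_le
      · intro y hy
        obtain ⟨x, hx, rfl⟩ := Finset.mem_image.1 hy
        exact hk k hk0 x hx
      · rw [Finset.card_image_of_injOn hinj]
    unfold lam
    conv_rhs => rw [← himg, Finset.sum_image hinj]
  have h4 : (4 : ℂ) * lam D (chi v) =
      ((∑ x ∈ D, (if (∑ i, v i * x i : ZMod 5) = 0 then 4 else -1) : ℤ) : ℂ) := by
    have h5 : ∑ k ∈ (Finset.univ : Finset (ZMod 5)).erase 0, ∑ x ∈ D, chi v (k • x) =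
        (4 : ℂ) * lam D (chi v) := by
      rw [Finset.sum_congr rfl fun k hk => hsum k (Finset.ne_of_mem_erase hk), Finset.sum_const]
      have : ((Finset.univ : Finset (ZMod 5)).erase 0).card = 4 := by decide
      rw [this]
      simp
    rw [← h5, Finset.sum_comm]
    push_cast
    refine Finset.sum_congr rfl fun x _ => ?_
    have h6 : ∀ k : ZMod 5, chi v (k • x) =
        ZMod.stdAddChar (N := 5) (k * ∑ i, v i * x i) := by
      intro k
      rw [chi_apply, Finset.mul_sum]
      congr 1
      refine Finset.sum_congr rfl fun i _ => ?_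
      rw [Pi.smul_apply, smul_eq_mul]
      ring
    simp only [h6]
    rw [sum_mult]
  have hint : IsIntegral ℤ (lam D (chi v)) := by
    unfold lam
    apply IsIntegral.sum
    intro x _
    apply IsIntegral.of_pow (n := 5) (by norm_num)
    have : chi v x ^ 5 = 1 := by
      have h7 := char_pow_card (G := Fin 1 → ZMod 5) (chi fun _ => ∑ i, v i * x i) (fun _ => 1)
      have h8 : Fintype.card (Fin 1 → ZMod 5) = 5 := by
        rw [Fintype.card_fun, ZMod.card, Fintype.card_fin]
        norm_num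
      rw [h8, chi_apply] at h7
      rw [chi_apply]
      simpa using h7
    rw [this]
    exact isIntegral_one
  set s : ℤ := ∑ x ∈ D, (if (∑ i, v i * x i : ZMod 5) = 0 then 4 else -1) with hs
  have h9 : lam D (chi v) = algebraMap ℚ ℂ ((s : ℚ) / 4) := by
    have : (algebraMap ℚ ℂ) ((s : ℚ) / 4) = (s : ℂ) / 4 := by simp
    rw [this]
    field_simp
    linear_combination h4
  rw [h9, isIntegral_algebraMap_iff (algebraMap ℚ ℂ).injective,
    IsIntegrallyClosed.isIntegral_iff] at hint
  obtain ⟨k, hk'⟩ := hint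
  refine ⟨k, ?_⟩
  rw [h9, ← hk']
  simp

/-- All eigenvalues of the graph are integers if and only if `D` is closed under doubling. -/
theorem integral_iff {e : ℕ} {D : Finset (Fin (4 + e) → ZMod 5)} (hD : InK D) :
    (∀ ψ : AddChar (Fin (4 + e) → ZMod 5) ℂ, ∃ k : ℤ, lam (C0 e ∪ D) ψ = k) ↔
      ∀ x ∈ D, x + x ∈ D := by
  constructor
  · intro h
    apply closed_of_integral
    intro v
    obtain ⟨k, hk⟩ := h (chi v)
    rw [lam_union hD] at hk
    refine ⟨k - (5 * (N4 (hd v) : ℤ) - 21), ?_⟩
    push_cast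
    linear_combination hk
  · intro h ψ
    obtain ⟨v, rfl⟩ := exists_chi ψ
    obtain ⟨k, hk⟩ := integral_of_closed D h v
    refine ⟨5 * (N4 (hd v) : ℤ) - 21 + k, ?_⟩
    rw [lam_union hD, hk]
    push_cast
    ring

end Pool.Agent.Lib_helper43.NonInt
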